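import Mathlib

set_option autoImplicit false

/-!
# The critical exponent of the minimal enhanced spanning time is `1 / 2`

*Upper bound.* Let `Z` be the staircase with `m` steps of length `m` and heights
`m ^ 2 * 2 ^ (m - k)`, so `s(Z) ≥ m ^ 2`. We show `μ_en(Z) ≤ 13 m + 5`. Follow a cell that is added
at time `n` backwards: it was added late because its row or its column just got a larger value, and
this happened because a critical cell of the same row (with `r_j + i + 1 = X_k`) or of the same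
column (with `c_i + j + 1 = Y_k`) was added one step before. In such a chain the vertical moves with
`j + 1 < Y_{k+1}` come first and their levels `k` increase; then come those with `j + 1 ≥ Y_{k+1}`,
and their levels decrease. In each part the lengths `m` of the steps bound the number of the moves
without a change of level, and the horizontal moves are charged to changes of the levels.

*Lower bound.* If `q ^ 2 ≤ s(Z)` then `μ_en(Z) ≥ q`: either `Z` has `q` corners, and `r = 0`,
`c_i =` the height of `Z` at `i` needs `q` steps, or some window `{x ≥ a, y ≥ b}` has a point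
maximizing `x + y` at distance at least `q - 1` from both sides, and a linear pair is slow.
-/

namespace Pool.Agent.Results.MP_3b4555_co.CriticalHalf

/-! ### The definitions of the problem -/

/-- The rectangle `R_{a,b} = {0, ..., a - 1} × {0, ..., b - 1}`. -/
def rect (a b : ℕ) : Set (ℕ × ℕ) := {x | x.1 < a ∧ x.2 < b}

/-- Zero-sets: unions of rectangles `R_{a,b}`, `a, b ≥ 1`, over a finite index set. -/
def IsZeroSet (Z : Set (ℕ × ℕ)) : Prop :=
  ∃ I : Finset (ℕ × ℕ), (∀ p ∈ I, 1 ≤ p.1 ∧ 1 ≤ p.2) ∧ Z = ⋃ p ∈ I, rect p.1 p.2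

/-- `row(x, A)`: the number of points of `A` on the horizontal line through `x`. -/
noncomputable def row (x : ℕ × ℕ) (A : Set (ℕ × ℕ)) : ℕ∞ := {i : ℕ | (i, x.2) ∈ A}.encard

/-- `col(x, A)`: the number of points of `A` on the vertical line through `x`. -/
noncomputable def col (x : ℕ × ℕ) (A : Set (ℕ × ℕ)) : ℕ∞ := {j : ℕ | (x.1, j) ∈ A}.encard

/-- The pair `(a, b)` of possibly infinite numbers lies in `Z`. -/
def InZ (Z : Set (ℕ × ℕ)) (a b : ℕ∞) : Prop := ∃ p ∈ Z, (p.1 : ℕ∞) = a ∧ (p.2 : ℕ∞) = b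

/-- A weakly decreasing sequence of non-negative integers with finitely many nonzero terms. -/
def IsEnh (r : ℕ → ℕ) : Prop := Antitone r ∧ {j : ℕ | r j ≠ 0}.Finite

/-- The enhanced growth map
`T_en(A) = A ∪ {(i, j) : (row((i, j), A) + r_j, col((i, j), A) + c_i) ∉ Z}`. -/
def stepEn (Z : Set (ℕ × ℕ)) (r c : ℕ → ℕ) (A : Set (ℕ × ℕ)) : Set (ℕ × ℕ) :=
  A ∪ {x | ¬ InZ Z (row x A + r x.2) (col x A + c x.1)}

/-- The pair `(r, c)` spans for `Z`. -/
def Spans (Z : Set (ℕ × ℕ)) (r c : ℕ → ℕ) : Prop := ⋃ t : ℕ, (stepEn Z r c)^[t] ∅ = Set.univ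

/-- The enhanced spanning time `τ_en(Z, r, c) = min {t ≥ 1 : T_en^t(∅) = ℤ_+^2}`. -/
noncomputable def tauEn (Z : Set (ℕ × ℕ)) (r c : ℕ → ℕ) : ℕ∞ :=
  ⨅ (t : ℕ) (_ : 1 ≤ t ∧ (stepEn Z r c)^[t] ∅ = Set.univ), (t : ℕ∞)

/-- `μ_en(Z)`: the supremum of the enhanced spanning times over all spanning enhancement pairs. -/
noncomputable def muEn (Z : Set (ℕ × ℕ)) : ℕ∞ :=
  ⨆ (r : ℕ → ℕ) (c : ℕ → ℕ) (_ : IsEnh r ∧ IsEnh c ∧ Spans Z r c), tauEn Z r c

/-- `s(Z)`: the largest `s` with `R_{s,s} ⊆ Z`. -/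
noncomputable def side (Z : Set (ℕ × ℕ)) : ℕ := sSup {s : ℕ | rect s s ⊆ Z}

/-- The critical exponent `α_c^min`. -/
noncomputable def alphaMin : ℝ :=
  sInf {α : ℝ | 0 < α ∧ ⨅ (Z : Set (ℕ × ℕ)) (_ : IsZeroSet Z ∧ Z.Nonempty),
    (muEn Z : ENNReal) / (side Z : ENNReal) ^ α = 0}

/-! ### The staircase dynamics, combinatorially -/

/-- Row `j` has (at least) the value `x`. -/
def RG (r : ℕ → ℕ) (A : ℕ → Set (ℕ × ℕ)) (j x t : ℕ) : Prop :=
  x ≤ r j ∨ (x - r j - 1, j) ∈ A t

/-- Column `i` has (at least) the value `y`. -/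
def CG (c : ℕ → ℕ) (A : ℕ → Set (ℕ × ℕ)) (i y t : ℕ) : Prop :=
  y ≤ c i ∨ (i, y - c i - 1) ∈ A t

/-- The enhanced dynamics for the staircase with `K` steps of length `m` and heights `Y k`. -/
structure Dyn (K m : ℕ) (Y r c : ℕ → ℕ) (A : ℕ → Set (ℕ × ℕ)) : Prop where
  hY2 : ∀ k, 2 * Y (k + 1) ≤ Y k
  hYpos : ∀ k, k < K → 1 ≤ Y k
  hYK : ∀ k, K ≤ k → Y k = 0
  hm : 1 ≤ m
  hr : Antitone r
  hc : Antitone c
  A0 : A 0 = ∅
  Asucc : ∀ t i j, (i, j) ∈ A (t + 1) ↔
    (i, j) ∈ A t ∨ ∃ k, k ≤ K ∧ RG r A j (k * m) t ∧ CG c A i (Y k) t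
  young : ∀ t i j i' j', (i, j) ∈ A t → i' ≤ i → j' ≤ j → (i', j') ∈ A t

section
variable {K m : ℕ} {Y r c : ℕ → ℕ} {A : ℕ → Set (ℕ × ℕ)}

namespace Dyn

lemma Yanti (D : Dyn K m Y r c A) : Antitone Y := by
  apply antitone_nat_of_succ_le
  intro n
  have := D.hY2 n
  omega

lemma Alt (D : Dyn K m Y r c A) (t : ℕ) : A t ⊆ A (t + 1) := by
  rintro ⟨i, j⟩ h
  exact (D.Asucc t i j).2 (Or.inl h)

lemma Amono (D : Dyn K m Y r c A) : Monotone A := monotone_nat_of_le_succ D.Alt

lemma RG_t (D : Dyn K m Y r c A) {j x t t' : ℕ} (h : RG r A j x t) (ht : t ≤ t') :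
    RG r A j x t' := by
  rcases h with h | h
  · exact Or.inl h
  · exact Or.inr (D.Amono ht h)

lemma RG_x (D : Dyn K m Y r c A) {j x x' t : ℕ} (h : RG r A j x t) (hx : x' ≤ x) :
    RG r A j x' t := by
  rcases h with h | h
  · exact Or.inl (hx.trans h)
  · exact Or.inr (D.young _ _ _ _ _ h (by omega) le_rfl)

lemma RG_j (D : Dyn K m Y r c A) {j j' x t : ℕ} (h : RG r A j x t) (hj : j' ≤ j) :
    RG r A j' x t := by
  have := D.hr hj
  rcases h with h | h
  · exact Or.inl (h.trans this)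
  · exact Or.inr (D.young _ _ _ _ _ h (by omega) hj)

lemma CG_t (D : Dyn K m Y r c A) {i y t t' : ℕ} (h : CG c A i y t) (ht : t ≤ t') :
    CG c A i y t' := by
  rcases h with h | h
  · exact Or.inl h
  · exact Or.inr (D.Amono ht h)

lemma CG_y (D : Dyn K m Y r c A) {i y y' t : ℕ} (h : CG c A i y t) (hy : y' ≤ y) :
    CG c A i y' t := by
  rcases h with h | h
  · exact Or.inl (hy.trans h)
  · exact Or.inr (D.young _ _ _ _ _ h le_rfl (by omega))

lemma CG_i (D : Dyn K m Y r c A) {i i' y t : ℕ} (h : CG c A i y t) (hi : i' ≤ i) :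
    CG c A i' y t := by
  have := D.hc hi
  rcases h with h | h
  · exact Or.inl (h.trans this)
  · exact Or.inr (D.young _ _ _ _ _ h hi (by omega))

end Dyn

open Classical in
/-- The level of row `j` at time `t`. -/
noncomputable def lev (r : ℕ → ℕ) (A : ℕ → Set (ℕ × ℕ)) (K m j t : ℕ) : ℕ :=
  Nat.findGreatest (P := fun k => RG r A j (k * m) t) K

/-- The cell `(i, j)` is added in step `n`. -/
def New (A : ℕ → Set (ℕ × ℕ)) (n i j : ℕ) : Prop := (i, j) ∈ A (n + 1) ∧ (i, j) ∉ A n

open Classical in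
/-- The number of finished levels at time `n`. -/
noncomputable def Phi (Y r : ℕ → ℕ) (A : ℕ → Set (ℕ × ℕ)) (K m n : ℕ) : ℕ :=
  ((Finset.range K).filter (fun l => RG r A (Y l - 1) ((l + 1) * m) n)).card

/-- The potential `Φ(n) + Φ(n - 1)`. -/
noncomputable def pot (Y r : ℕ → ℕ) (A : ℕ → Set (ℕ × ℕ)) (K m : ℕ) : ℕ → ℕ
  | 0 => Phi Y r A K m 0
  | n + 1 => Phi Y r A K m (n + 1) + Phi Y r A K m n

namespace Dyn

lemma lev_le (j t : ℕ) : lev r A K m j t ≤ K := by
  classical
  exact Nat.findGreatest_le (P := fun k => RG r A j (k * m) t) K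

lemma RG_lev (j t : ℕ) : RG r A j (lev r A K m j t * m) t := by
  have h0 : RG r A j (0 * m) t := by
    left
    simp
  classical
  exact Nat.findGreatest_spec (P := fun k => RG r A j (k * m) t) (Nat.zero_le K) h0

lemma le_lev {j t k : ℕ} (hk : k ≤ K) (h : RG r A j (k * m) t) : k ≤ lev r A K m j t := by
  classical
  exact Nat.le_findGreatest (P := fun k => RG r A j (k * m) t) hk h

lemma RG_of_le_lev (D : Dyn K m Y r c A) {j t k : ℕ} (h : k ≤ lev r A K m j t) :
    RG r A j (k * m) t :=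
  D.RG_x (RG_lev (K := K) j t) (Nat.mul_le_mul_right m h)

lemma lev_t (D : Dyn K m Y r c A) {j t t' : ℕ} (ht : t ≤ t') :
    lev r A K m j t ≤ lev r A K m j t' :=
  le_lev (lev_le j t) (D.RG_t (RG_lev j t) ht)

/-- The rule of the dynamics in terms of the level. -/
lemma rule (D : Dyn K m Y r c A) {t i j : ℕ} :
    (i, j) ∈ A (t + 1) ↔ (i, j) ∈ A t ∨ CG c A i (Y (lev r A K m j t)) t := by
  rw [D.Asucc]
  constructor
  · rintro (h | ⟨k, hk, h1, h2⟩)
    · exact Or.inl h
    · exact Or.inr (D.CG_y h2 (D.Yanti (le_lev hk h1)))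
  · rintro (h | h)
    · exact Or.inl h
    · exact Or.inr ⟨_, lev_le j t, RG_lev j t, h⟩

lemma new_CG (D : Dyn K m Y r c A) {n i j : ℕ} (h : New A n i j) :
    CG c A i (Y (lev r A K m j n)) n := by
  rcases D.rule.1 h.1 with h1 | h1
  · exact absurd h1 h.2
  · exact h1

lemma not_CG_of_not_mem (D : Dyn K m Y r c A) {n i j : ℕ} (h : (i, j) ∉ A (n + 1)) :
    ¬ CG c A i (Y (lev r A K m j n)) n := fun h1 => h (D.rule.2 (Or.inr h1))

/-- If column `i` gets the value `y` in step `n`, a critical cell is added. -/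
lemma new_of_CG {n i y : ℕ} (h : CG c A i y (n + 1)) (h' : ¬ CG c A i y n) :
    ∃ j', New A n i j' ∧ c i + j' + 1 = y := by
  have hy : c i < y := by
    by_contra hy
    exact h' (Or.inl (by omega))
  rcases h with h | h
  · omega
  · exact ⟨y - c i - 1, ⟨h, fun h2 => h' (Or.inr h2)⟩, by omega⟩

lemma new_of_RG {n j x : ℕ} (h : RG r A j x (n + 1)) (h' : ¬ RG r A j x n) :
    ∃ i', New A n i' j ∧ r j + i' + 1 = x := by
  have hy : r j < x := by
    by_contra hy
    exact h' (Or.inl (by omega))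
  rcases h with h | h
  · omega
  · exact ⟨x - r j - 1, ⟨h, fun h2 => h' (Or.inr h2)⟩, by omega⟩

lemma Phi_mono (D : Dyn K m Y r c A) {n n' : ℕ} (h : n ≤ n') :
    Phi Y r A K m n ≤ Phi Y r A K m n' := by
  classical
  refine Finset.card_le_card fun l hl => ?_
  rw [Finset.mem_filter] at hl ⊢
  exact ⟨hl.1, D.RG_t hl.2 h⟩

lemma Phi_le (n : ℕ) : Phi Y r A K m n ≤ K := by
  classical
  unfold Phi
  refine (Finset.card_filter_le _ _).trans ?_
  simp

lemma Phi_lt (D : Dyn K m Y r c A) {n n' l : ℕ} (h : n ≤ n') (hl : l < K)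
    (h1 : ¬ RG r A (Y l - 1) ((l + 1) * m) n) (h2 : RG r A (Y l - 1) ((l + 1) * m) n') :
    Phi Y r A K m n < Phi Y r A K m n' := by
  classical
  refine Finset.card_lt_card ⟨fun l hl => ?_, fun hsub => ?_⟩
  · rw [Finset.mem_filter] at hl ⊢
    exact ⟨hl.1, D.RG_t hl.2 h⟩
  · have : l ∈ (Finset.range K).filter (fun l => RG r A (Y l - 1) ((l + 1) * m) n') := by
      rw [Finset.mem_filter, Finset.mem_range]
      exact ⟨hl, h2⟩
    have := hsub this
    rw [Finset.mem_filter] at this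
    exact h1 this.2

lemma pot_mono (D : Dyn K m Y r c A) : Monotone (pot Y r A K m) := by
  apply monotone_nat_of_le_succ
  intro n
  cases n with
  | zero =>
    simp only [pot]
    have := D.Phi_mono (Nat.zero_le 1)
    omega
  | succ n =>
    simp only [pot]
    have h1 := D.Phi_mono (n := n + 1) (n' := n + 1 + 1) (by omega)
    have h2 := D.Phi_mono (n := n) (n' := n + 1) (by omega)
    omega

lemma pot_le (n : ℕ) : pot Y r A K m n ≤ 2 * K := by
  cases n with
  | zero =>
    simp only [pot]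
    have := Phi_le (Y := Y) (r := r) (A := A) (K := K) (m := m) 0
    omega
  | succ n =>
    simp only [pot]
    have := Phi_le (Y := Y) (r := r) (A := A) (K := K) (m := m) n
    have := Phi_le (Y := Y) (r := r) (A := A) (K := K) (m := m) (n + 1)
    omega


/-- The predecessor of a new cell. -/
lemma pred (D : Dyn K m Y r c A) {n i j : ℕ} (h : New A (n + 1) i j) :
    (∃ j', New A n i j' ∧ c i + j' + 1 = Y (lev r A K m j (n + 1))) ∨
    (∃ n' l j', n = n' + 1 ∧ lev r A K m j n < l ∧ l ≤ lev r A K m j (n + 1) ∧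
      Y (l - 1) ≤ j + 1 ∧ New A n' i j' ∧ c i + j' + 1 = Y l) ∨
    (lev r A K m j n < lev r A K m j (n + 1) ∧
      (∃ i', New A n i' j ∧ r j + i' + 1 = (lev r A K m j n + 1) * m ∧ i' < i) ∧
      (j + 1 < Y (lev r A K m j n) ∨ pot Y r A K m n + 1 ≤ pot Y r A K m (n + 1))) := by
  classical
  by_cases hV : CG c A i (Y (lev r A K m j (n + 1))) n
  swap
  · exact Or.inl (new_of_CG (D.new_CG h) hV)
  have hnot : ¬ CG c A i (Y (lev r A K m j n)) n := D.not_CG_of_not_mem h.2
  have hlt : lev r A K m j n < lev r A K m j (n + 1) := by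
    by_contra hcon
    exact hnot (D.CG_y hV (D.Yanti (by omega)))
  have hex : ∃ l, CG c A i (Y l) n := ⟨_, hV⟩
  obtain ⟨l, hl, hlmin⟩ : ∃ l, CG c A i (Y l) n ∧ ∀ l' < l, ¬ CG c A i (Y l') n :=
    ⟨Nat.find hex, Nat.find_spec hex, fun l' hl' => Nat.find_min hex hl'⟩
  have hl1 : l ≤ lev r A K m j (n + 1) := by
    by_contra hcon
    exact hlmin _ (by omega) hV
  have hl2 : lev r A K m j n < l := by
    by_contra hcon
    exact hnot (D.CG_y hl (D.Yanti (by omega)))
  have hlK : l ≤ K := hl1.trans (lev_le _ _)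
  have hl3 : ¬ CG c A i (Y (l - 1)) n := hlmin _ (by omega)
  -- the horizontal move
  have hH : ∃ i', New A n i' j ∧ r j + i' + 1 = (lev r A K m j n + 1) * m ∧ i' < i := by
    have h1 : RG r A j ((lev r A K m j n + 1) * m) (n + 1) := D.RG_of_le_lev (by omega)
    have h2 : ¬ RG r A j ((lev r A K m j n + 1) * m) n := fun h2 => by
      have := le_lev (K := K) (by omega) h2
      omega
    obtain ⟨i', hi', he⟩ := new_of_RG h1 h2
    refine ⟨i', hi', he, ?_⟩
    by_contra hcon
    exact h.2 (D.young _ _ _ _ _ hi'.1 (by omega) le_rfl)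
  by_cases hj : Y (l - 1) ≤ j + 1
  swap
  · refine Or.inr (Or.inr ⟨hlt, hH, Or.inl ?_⟩)
    have := D.Yanti (show lev r A K m j n ≤ l - 1 by omega)
    omega
  have hfin : RG r A (Y (l - 1) - 1) ((l - 1 + 1) * m) (n + 1) := by
    refine D.RG_j (j := j) ?_ (by omega)
    rw [show l - 1 + 1 = l by omega]
    exact D.RG_of_le_lev hl1
  cases n with
  | zero =>
    refine Or.inr (Or.inr ⟨hlt, hH, Or.inr ?_⟩)
    have h1 : 1 ≤ Phi Y r A K m (0 + 1) := by
      refine Finset.card_pos.2 ⟨l - 1, ?_⟩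
      rw [Finset.mem_filter, Finset.mem_range]
      exact ⟨by omega, hfin⟩
    have h2 : pot Y r A K m (0 + 1) = Phi Y r A K m (0 + 1) + Phi Y r A K m 0 := rfl
    have h3 : pot Y r A K m 0 = Phi Y r A K m 0 := rfl
    omega
  | succ n' =>
    by_cases hV2 : CG c A i (Y l) n'
    swap
    · obtain ⟨j', hj', he⟩ := new_of_CG hl hV2
      exact Or.inr (Or.inl ⟨n', l, j', rfl, hl2, hl1, hj, hj', he⟩)
    refine Or.inr (Or.inr ⟨hlt, hH, Or.inr ?_⟩)
    have hnf : ¬ RG r A (Y (l - 1) - 1) ((l - 1 + 1) * m) n' := by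
      intro hRG
      apply hl3
      by_cases hci : Y (l - 1) ≤ c i
      · exact Or.inl hci
      right
      have hRG' : RG r A (Y (l - 1) - c i - 1) (l * m) n' := by
        rw [show l - 1 + 1 = l by omega] at hRG
        exact D.RG_j hRG (by omega)
      exact D.rule.2 (Or.inr (D.CG_y hV2 (D.Yanti (le_lev hlK hRG'))))
    have := D.Phi_lt (show n' ≤ n' + 1 + 1 by omega) (show l - 1 < K by omega) hnf hfin
    have h2 : pot Y r A K m (n' + 1 + 1) = Phi Y r A K m (n' + 1 + 1) + Phi Y r A K m (n' + 1) :=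
      rfl
    have h3 : pot Y r A K m (n' + 1) = Phi Y r A K m (n' + 1) + Phi Y r A K m n' := rfl
    omega

end Dyn

/-- A vertical move into the cell `(i, j)`. -/
def VM (K m : ℕ) (Y r c : ℕ → ℕ) (A : ℕ → Set (ℕ × ℕ)) (n i j : ℕ) : Prop :=
  ∃ n' j', n = n' + 1 ∧ New A n' i j' ∧ c i + j' + 1 = Y (lev r A K m j n)

/-- A long vertical move into the cell `(i, j)`. -/
def VM2 (K m : ℕ) (Y r c : ℕ → ℕ) (A : ℕ → Set (ℕ × ℕ)) (n i j : ℕ) : Prop :=
  ∃ n' l j', n = n' + 2 ∧ lev r A K m j (n' + 1) < l ∧ l ≤ lev r A K m j (n' + 2) ∧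
    Y (l - 1) ≤ j + 1 ∧ New A n' i j' ∧ c i + j' + 1 = Y l

namespace Dyn

lemma rowRun (D : Dyn K m Y r c A) : ∀ n i j, New A n i j → ∃ n0 i0, n0 ≤ n ∧ i0 ≤ i ∧
    New A n0 i0 j ∧ (n0 = 0 ∨ VM K m Y r c A n0 i0 j ∨ VM2 K m Y r c A n0 i0 j) ∧
    (∀ s, n0 ≤ s → s < n → lev r A K m j s < lev r A K m j (s + 1) ∧
      (j + 1 < Y (lev r A K m j s) ∨ pot Y r A K m s + 1 ≤ pot Y r A K m (s + 1))) ∧
    (n0 < n → i0 < i ∧ r j + i0 + 1 = (lev r A K m j n0 + 1) * m) ∧ (n0 = n → i0 = i) := by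
  intro n
  induction n with
  | zero =>
    intro i j h
    exact ⟨0, i, le_rfl, le_rfl, h, Or.inl rfl, fun s h1 h2 => by omega, fun h => by omega,
      fun _ => rfl⟩
  | succ n ih =>
    intro i j h
    rcases D.pred h with ⟨j', h1, h2⟩ | ⟨n', l, j', h1, h2, h3, h4, h5, h6⟩ |
      ⟨h1, ⟨i', h2, h3, h4⟩, h5⟩
    · exact ⟨n + 1, i, le_rfl, le_rfl, h, Or.inr (Or.inl ⟨n, j', rfl, h1, h2⟩),
        fun s h1 h2 => by omega, fun h => by omega, fun _ => rfl⟩
    · subst h1
      exact ⟨n' + 1 + 1, i, le_rfl, le_rfl, h, Or.inr (Or.inr ⟨n', l, j', rfl, h2, h3, h4, h5, h6⟩),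
        fun s h1 h2 => by omega, fun h => by omega, fun _ => rfl⟩
    · obtain ⟨n0, i0, k1, k2, k3, k4, k5, k6, k7⟩ := ih i' j h2
      refine ⟨n0, i0, by omega, by omega, k3, k4, ?_, ?_, fun h => by omega⟩
      · intro s hs1 hs2
        rcases Nat.lt_succ_iff_lt_or_eq.1 hs2 with hs3 | rfl
        · exact k5 s hs1 hs3
        · exact ⟨h1, h5⟩
      · intro _
        rcases Nat.lt_or_eq_of_le k1 with hlt | heq
        · have := k6 hlt
          exact ⟨by omega, this.2⟩
        · have hi := k7 heq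
          subst heq
          subst hi
          exact ⟨by omega, h3⟩

/-- Levels increase along a run. -/
lemma run_lev {j n0 n : ℕ}
    (h : ∀ s, n0 ≤ s → s < n → lev r A K m j s < lev r A K m j (s + 1)) :
    ∀ s, n0 ≤ s → s ≤ n → lev r A K m j n0 + s ≤ lev r A K m j s + n0 := by
  intro s hs
  induction s, hs using Nat.le_induction with
  | base => intro _; omega
  | succ s hs ih =>
    intro h2
    have := h s hs (by omega)
    have := ih (by omega)
    omega

/-- The potential increases along a run. -/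
lemma run_pot (D : Dyn K m Y r c A) {j n0 n : ℕ}
    (h : ∀ s, n0 ≤ s → s < n → lev r A K m j s < lev r A K m j (s + 1) ∧
      (j + 1 < Y (lev r A K m j s) ∨ pot Y r A K m s + 1 ≤ pot Y r A K m (s + 1)))
    (hj : Y (lev r A K m j n0 + 1) ≤ j + 1) :
    ∀ s, n0 ≤ s → s ≤ n → s + pot Y r A K m n0 ≤ n0 + 1 + pot Y r A K m s := by
  intro s hs
  induction s, hs using Nat.le_induction with
  | base => intro _; omega
  | succ s hs ih =>
    intro h2
    have h3 := h s hs (by omega)
    have h4 := ih (by omega)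
    rcases Nat.lt_or_eq_of_le hs with hlt | heq
    · have h5 := run_lev (fun s h1 h2 => (h s h1 h2).1) s hs (by omega)
      have h6 := D.Yanti (show lev r A K m j n0 + 1 ≤ lev r A K m j s by omega)
      rcases h3.2 with h7 | h7
      · omega
      · omega
    · subst heq
      have := D.pot_mono (Nat.le_succ n0)
      simp only [Nat.succ_eq_add_one] at this
      omega


lemma beta_closed (D : Dyn K m Y r c A) {i j k i' j' k' : ℕ} (h : c i + j + 1 = Y k)
    (h' : c i' + j' + 1 = Y k') (hi : i ≤ i') (hj : j ≤ j') (hb : Y (k + 1) ≤ j + 1) :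
    Y (k' + 1) ≤ j' + 1 := by
  by_cases hk : k ≤ k'
  · have := D.Yanti (show k + 1 ≤ k' + 1 by omega)
    omega
  · have h1 := D.hc hi
    have h2 := D.Yanti (show k' + 1 ≤ k by omega)
    have h3 := D.hY2 k'
    omega

lemma alpha_mono (D : Dyn K m Y r c A) {i j k i' j' k' : ℕ} (h : c i + j + 1 = Y k)
    (h' : c i' + j' + 1 = Y k') (hi : i ≤ i') (ha : j' + 1 < Y (k' + 1)) : k ≤ k' := by
  by_contra hk
  have h1 := D.hc hi
  have h2 := D.Yanti (show k' + 1 ≤ k by omega)
  have h3 := D.hY2 k'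
  omega

lemma exists_new {t i j : ℕ} (D : Dyn K m Y r c A) (h : (i, j) ∈ A t) :
    ∃ n, n < t ∧ New A n i j := by
  induction t with
  | zero => rw [D.A0] at h; exact absurd h (Set.notMem_empty _)
  | succ t ih =>
    by_cases h1 : (i, j) ∈ A t
    · obtain ⟨n, hn, h2⟩ := ih h1
      exact ⟨n, by omega, h2⟩
    · exact ⟨t, by omega, h, h1⟩

lemma row_eq (D : Dyn K m Y r c A) {j j' : ℕ} (h : r j = r j') :
    ∀ t i, (i, j) ∈ A t ↔ (i, j') ∈ A t := by
  intro t
  induction t with
  | zero => intro i; rw [D.A0]; simp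
  | succ t ih =>
    have hRG : ∀ x, RG r A j x t ↔ RG r A j' x t := by
      intro x
      unfold RG
      rw [h, ih]
    -- the level is the same
    have hlev : lev r A K m j t = lev r A K m j' t := by
      apply le_antisymm
      · exact le_lev (lev_le _ _) ((hRG _).1 (RG_lev _ _))
      · exact le_lev (lev_le _ _) ((hRG _).2 (RG_lev _ _))
    intro i
    rw [D.rule, D.rule, ih, hlev]

lemma r_lt (D : Dyn K m Y r c A) {t i j j' : ℕ} (h : (i, j') ∈ A t) (h' : (i, j) ∉ A t) :
    r j < r j' := by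
  have hlt : j' < j := by
    by_contra hcon
    exact h' (D.young _ _ _ _ _ h le_rfl (by omega))
  have h1 := D.hr hlt.le
  rcases Nat.lt_or_eq_of_le h1 with h2 | h2
  · exact h2
  · exact absurd ((D.row_eq h2 t i).2 h) h'

lemma claimZ (D : Dyn K m Y r c A) {n i j k k1 z : ℕ} (hn : New A n i j)
    (he : c i + j + 1 = Y k) (ha : j + 1 < Y (k + 1)) (hk : k1 ≤ k) (hz : c z < Y k1) :
    k1 * m ≤ z + r j := by
  have hlev : k < lev r A K m j n := by
    by_contra hcon
    rcases D.CG_y (D.new_CG hn) (D.Yanti (show lev r A K m j n ≤ k by omega)) with h1 | h1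
    · omega
    · rw [show Y k - c i - 1 = j by omega] at h1
      exact hn.2 h1
  by_contra hcon
  rcases D.RG_of_le_lev (show k1 ≤ lev r A K m j n by omega) with h1 | h1
  · omega
  obtain ⟨n', hn', h2⟩ := D.exists_new h1
  have hlt : lev r A K m j n' < k1 := by
    by_contra hcon2
    rcases D.RG_of_le_lev (show k1 ≤ lev r A K m j n' by omega) with h3 | h3
    · omega
    · exact h2.2 h3
  have h4 := D.CG_y (D.new_CG h2) (D.Yanti (show lev r A K m j n' ≤ k1 - 1 by omega))
  have h5 : Y (k1 - 1) ≤ c (k1 * m - r j - 1) + j := by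
    rcases h4 with h4 | h4
    · omega
    · by_contra hcon3
      exact h2.2 (D.young _ _ _ _ _ h4 le_rfl (by omega))
  have h6 := D.hY2 (k1 - 1)
  rw [show k1 - 1 + 1 = k1 by omega] at h6
  have h7 := D.Yanti (show k1 ≤ k + 1 by omega)
  have h8 : k1 * m - r j - 1 < z := by
    by_contra hcon4
    have := D.hc (show z ≤ k1 * m - r j - 1 by omega)
    omega
  omega

lemma claimA (D : Dyn K m Y r c A) : ∀ n i j k, New A n i j → c i + j + 1 = Y k →
    j + 1 < Y (k + 1) → ∃ N, n ≤ K + 2 * N + k ∧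
      (N = 0 ∨ ∃ k1 z, k1 ≤ k ∧ c z < Y k1 ∧ r j + N + z ≤ (k1 + 1) * m) := by
  intro n
  induction n using Nat.strong_induction_on with
  | _ n ih =>
  intro i j k hn he ha
  obtain ⟨n0, i0, k1, k2, k3, k4, k5, k6, k7⟩ := D.rowRun n i j hn
  rcases k4 with rfl | ⟨n', j', hn0, hn', he'⟩ | ⟨n', l, j', hn0, h1, h2, h3, hn', he'⟩
  · have h1 := run_lev (fun s h1 h2 => (k5 s h1 h2).1) n k1 le_rfl
    have h2 := lev_le (K := K) (r := r) (A := A) (m := m) j n
    exact ⟨0, by omega, Or.inl rfl⟩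
  · subst hn0
    have hj : j' < j := by
      by_contra hcon
      exact k3.2 (D.young _ _ _ _ _ hn'.1 le_rfl (by omega))
    have ha' : j' + 1 < Y (lev r A K m j (n' + 1) + 1) := by
      by_contra hcon
      have := D.beta_closed he' he k2 hj.le (by omega)
      omega
    have hkk := D.alpha_mono he' he k2 ha
    have hlt : n' + 1 < n := by
      rcases Nat.lt_or_eq_of_le k1 with h | h
      · exact h
      · have := k7 h
        subst this
        have := D.Yanti hkk
        omega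
    obtain ⟨k8, k9⟩ := k6 hlt
    obtain ⟨N, hN1, hN2⟩ := ih n' (by omega) i0 j' _ hn' he' ha'
    have h1 := run_lev (fun s h1 h2 => (k5 s h1 h2).1) (n - 1) (by omega) (by omega)
    have h2 : lev r A K m j (n - 1) ≤ k := by
      by_contra hcon
      have hnot : (i, j) ∉ A (n - 1 + 1) := by
        rw [show n - 1 + 1 = n by omega]
        exact hn.2
      refine D.not_CG_of_not_mem hnot (Or.inl ?_)
      have h3 := D.Yanti (show k + 1 ≤ lev r A K m j (n - 1) by omega)
      have h4 := D.hY2 k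
      omega
    refine ⟨N + 1, by omega, Or.inr ?_⟩
    rcases hN2 with rfl | ⟨q, z, hq1, hq2, hq3⟩
    · exact ⟨lev r A K m j (n' + 1), i0, hkk, by omega, by omega⟩
    · refine ⟨q, z, by omega, hq2, ?_⟩
      have := D.r_lt hn'.1 k3.2
      omega
  · exfalso
    subst hn0
    have hj : j' < j := by
      by_contra hcon
      have h4 : (i0, j) ∈ A (n' + 1) := D.young _ _ _ _ _ hn'.1 le_rfl (by omega)
      exact k3.2 (D.Alt _ h4)
    have ha' : j' + 1 < Y (l + 1) := by
      by_contra hcon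
      have := D.beta_closed he' he k2 hj.le (by omega)
      omega
    have hkk := D.alpha_mono he' he k2 ha
    have := D.Yanti (show l - 1 ≤ k + 1 by omega)
    omega

lemma timeA (D : Dyn K m Y r c A) {n i j k : ℕ} (hn : New A n i j) (he : c i + j + 1 = Y k)
    (ha : j + 1 < Y (k + 1)) : n ≤ 2 * K + 2 * m := by
  have hk : k < K := by
    by_contra hcon
    have := D.hYK (k + 1) (by omega)
    omega
  obtain ⟨N, h1, h2⟩ := D.claimA n i j k hn he ha
  rcases h2 with rfl | ⟨k1, z, h3, h4, h5⟩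
  · omega
  · have h6 := D.claimZ hn he ha h3 h4
    have h7 : (k1 + 1) * m = k1 * m + m := by ring
    omega

lemma claim2 (D : Dyn K m Y r c A) (hs : ∀ i j, ∃ t, (i, j) ∈ A t) {i0 k0 k j : ℕ}
    (hc0 : c i0 < Y k0) (hk : k ≤ k0) (hj : j + 1 ≤ Y k) : k * m ≤ r j + i0 := by
  rcases Nat.eq_zero_or_pos k with rfl | hk1
  · omega
  have hY := D.hY2 (k - 1)
  rw [show k - 1 + 1 = k by omega] at hY
  have hY' := D.Yanti hk
  obtain ⟨t, ht⟩ := hs i0 (Y (k - 1) - c i0 - 1)
  obtain ⟨n, -, hn⟩ := D.exists_new ht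
  have h1 : ¬ CG c A i0 (Y (k - 1)) n := by
    rintro (h | h)
    · omega
    · exact hn.2 h
  have hlev : k ≤ lev r A K m (Y (k - 1) - c i0 - 1) n := by
    by_contra hcon
    exact h1 (D.CG_y (D.new_CG hn) (D.Yanti (by omega)))
  have hr := D.hr (show j ≤ Y (k - 1) - c i0 - 1 by omega)
  rcases D.RG_of_le_lev hlev with h2 | h2
  · omega
  · by_contra hcon
    exact hn.2 (D.young _ _ _ _ _ h2 (by omega) le_rfl)

lemma claimB (D : Dyn K m Y r c A) (hs : ∀ i j, ∃ t, (i, j) ∈ A t) : ∀ n i j k, New A n i j →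
    c i + j + 1 = Y k → Y (k + 1) ≤ j + 1 → ∃ i0 k0 N, i0 + N ≤ i ∧ N ≤ m ∧ k ≤ k0 ∧
      c i0 < Y k0 ∧ n + 3 * k ≤ (3 * K + 2 * m + 2) + 2 * N + 3 * k0 + pot Y r A K m n := by
  intro n
  induction n using Nat.strong_induction_on with
  | _ n ih =>
  intro i j k hn he hb
  obtain ⟨n0, i0, k1, k2, k3, k4, k5, k6, k7⟩ := D.rowRun n i j hn
  have hrl := run_lev (fun s h1 h2 => (k5 s h1 h2).1) n k1 le_rfl
  have hlK := lev_le (K := K) (r := r) (A := A) (m := m) j n
  rcases k4 with rfl | ⟨n', j', hn0, hn', he'⟩ | ⟨n', l, j', hn0, h1, h2, h3, hn', he'⟩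
  · exact ⟨i, k, 0, by omega, by omega, le_rfl, by omega, by omega⟩
  · subst hn0
    have hj : j' < j := by
      by_contra hcon
      exact k3.2 (D.young _ _ _ _ _ hn'.1 le_rfl (by omega))
    by_cases hb' : Y (lev r A K m j (n' + 1) + 1) ≤ j' + 1
    swap
    · have := D.timeA hn' he' (by omega)
      exact ⟨i, k, 0, by omega, by omega, le_rfl, by omega, by omega⟩
    have hkk : k ≤ lev r A K m j (n' + 1) := by
      by_contra hcon
      have := D.Yanti (show lev r A K m j (n' + 1) + 1 ≤ k by omega)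
      omega
    obtain ⟨q, k0, N, h1, h2, h3, h4, h5⟩ := ih n' (by omega) i0 j' _ hn' he' hb'
    have hpm := D.pot_mono (show n' ≤ n' + 1 by omega)
    rcases Nat.lt_or_eq_of_le k1 with hlt | heq
    · obtain ⟨k8, k9⟩ := k6 hlt
      have hrp := D.run_pot k5 (by
        have := D.Yanti (show k + 1 ≤ lev r A K m j (n' + 1) + 1 by omega)
        omega) n k1 le_rfl
      rcases Nat.lt_or_eq_of_le hkk with hlt2 | heq2
      · exact ⟨q, k0, N, by omega, h2, by omega, h4, by omega⟩
      · have h6 := D.claim2 hs h4 (show k ≤ k0 by omega) (show j + 1 ≤ Y k by omega)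
        have h7 : (lev r A K m j (n' + 1) + 1) * m = k * m + m := by rw [← heq2]; ring
        exact ⟨q, k0, N + 1, by omega, by omega, by omega, h4, by omega⟩
    · have hi := k7 heq
      subst heq
      subst hi
      have hlt2 : k < lev r A K m j (n' + 1) := by
        rcases Nat.lt_or_eq_of_le hkk with h | h
        · exact h
        · rw [← h] at he'
          omega
      exact ⟨q, k0, N, by omega, h2, by omega, h4, by omega⟩
  · subst hn0
    have hj : j' < j := by
      by_contra hcon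
      have h4 : (i0, j) ∈ A (n' + 1) := D.young _ _ _ _ _ hn'.1 le_rfl (by omega)
      exact k3.2 (D.Alt _ h4)
    by_cases hb' : Y (l + 1) ≤ j' + 1
    swap
    · have := D.timeA hn' he' (by omega)
      exact ⟨i, k, 0, by omega, by omega, le_rfl, by omega, by omega⟩
    have hkk : k < l := by
      by_contra hcon
      have h4 := D.Yanti (show l ≤ k by omega)
      have h5 := D.hY2 (l - 1)
      rw [show l - 1 + 1 = l by omega] at h5
      omega
    obtain ⟨q, k0, N, h4, h5, h6, h7, h8⟩ := ih n' (by omega) i0 j' _ hn' he' hb'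
    have hrp := D.run_pot k5 (by
      have := D.Yanti (show l - 1 ≤ lev r A K m j (n' + 2) + 1 by omega)
      omega) n k1 le_rfl
    have hpm := D.pot_mono (show n' ≤ n' + 2 by omega)
    exact ⟨q, k0, N, by omega, h5, by omega, h7, by omega⟩

lemma timeB (D : Dyn K m Y r c A) (hs : ∀ i j, ∃ t, (i, j) ∈ A t) {n i j k : ℕ}
    (hn : New A n i j) (he : c i + j + 1 = Y k) : n ≤ 8 * K + 4 * m + 2 := by
  by_cases hb : Y (k + 1) ≤ j + 1
  · obtain ⟨i0, k0, N, h1, h2, h3, h4, h5⟩ := D.claimB hs n i j k hn he hb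
    have hk : k0 < K := by
      by_contra hcon
      have := D.hYK k0 (by omega)
      omega
    have := pot_le (Y := Y) (r := r) (A := A) (K := K) (m := m) n
    omega
  · have := D.timeA hn he (by omega)
    omega

theorem time (D : Dyn K m Y r c A) (hs : ∀ i j, ∃ t, (i, j) ∈ A t) :
    A (9 * K + 4 * m + 5) = Set.univ := by
  have key : ∀ n i j, New A n i j → n ≤ 9 * K + 4 * m + 4 := by
    intro n i j hn
    obtain ⟨n0, i0, k1, k2, k3, k4, k5, k6, k7⟩ := D.rowRun n i j hn
    have hrl := run_lev (fun s h1 h2 => (k5 s h1 h2).1) n k1 le_rfl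
    have hlK := lev_le (K := K) (r := r) (A := A) (m := m) j n
    rcases k4 with rfl | ⟨n', j', hn0, hn', he'⟩ | ⟨n', l, j', hn0, h1, h2, h3, hn', he'⟩
    · omega
    · have := D.timeB hs hn' he'
      omega
    · have := D.timeB hs hn' he'
      omega
  rw [Set.eq_univ_iff_forall]
  rintro ⟨i, j⟩
  obtain ⟨t, ht⟩ := hs i j
  obtain ⟨n, -, hn⟩ := D.exists_new ht
  exact D.Amono (show n + 1 ≤ _ by have := key n i j hn; omega) hn.1

end Dyn
end

/-! ### General facts on zero-sets -/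

lemma zs_down {Z : Set (ℕ × ℕ)} (hZ : IsZeroSet Z) {a b a' b' : ℕ} (h : (a, b) ∈ Z)
    (ha : a' ≤ a) (hb : b' ≤ b) : (a', b') ∈ Z := by
  obtain ⟨I, -, rfl⟩ := hZ
  simp only [Set.mem_iUnion, rect, Set.mem_ofPred_eq] at h ⊢
  obtain ⟨p, hp, h3, h4⟩ := h
  exact ⟨p, hp, by omega, by omega⟩

lemma zs_bdd {Z : Set (ℕ × ℕ)} (hZ : IsZeroSet Z) :
    ∃ M : ℕ, ∀ p ∈ Z, p.1 < M ∧ p.2 < M := by
  obtain ⟨I, -, rfl⟩ := hZ
  refine ⟨∑ p ∈ I, (p.1 + p.2), ?_⟩
  intro x hx
  simp only [Set.mem_iUnion, rect, Set.mem_ofPred_eq] at hx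
  obtain ⟨p, hp, h3, h4⟩ := hx
  have : p.1 + p.2 ≤ ∑ p ∈ I, (p.1 + p.2) :=
    Finset.single_le_sum (f := fun p : ℕ × ℕ => p.1 + p.2) (fun _ _ => Nat.zero_le _) hp
  omega

/-- The sequence of the sets. -/
def seqA (Z : Set (ℕ × ℕ)) (r c : ℕ → ℕ) (t : ℕ) : Set (ℕ × ℕ) := (stepEn Z r c)^[t] ∅

lemma seqA_zero (Z : Set (ℕ × ℕ)) (r c : ℕ → ℕ) : seqA Z r c 0 = ∅ := rfl

lemma seqA_succ (Z : Set (ℕ × ℕ)) (r c : ℕ → ℕ) (t : ℕ) :
    seqA Z r c (t + 1) = stepEn Z r c (seqA Z r c t) := by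
  unfold seqA
  rw [Function.iterate_succ_apply']

lemma not_InZ_iff {Z : Set (ℕ × ℕ)} (hZ : IsZeroSet Z) (R C : ℕ∞) :
    ¬ InZ Z R C ↔ ∃ a b : ℕ, (a, b) ∉ Z ∧ (a : ℕ∞) ≤ R ∧ (b : ℕ∞) ≤ C := by
  obtain ⟨M, hM⟩ := zs_bdd hZ
  constructor
  · intro h
    by_cases hR : R = ⊤
    · exact ⟨M, 0, fun h1 => absurd (hM _ h1).1 (lt_irrefl _), by rw [hR]; exact le_top, by simp⟩
    by_cases hC : C = ⊤
    · exact ⟨0, M, fun h1 => absurd (hM _ h1).2 (lt_irrefl _), by simp, by rw [hC]; exact le_top⟩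
    lift R to ℕ using hR
    lift C to ℕ using hC
    exact ⟨R, C, fun h1 => h ⟨_, h1, rfl, rfl⟩, le_rfl, le_rfl⟩
  · rintro ⟨a, b, h1, h2, h3⟩ ⟨⟨p, q⟩, hp, rfl, rfl⟩
    simp only [Nat.cast_le] at h2 h3
    exact h1 (zs_down hZ hp h2 h3)

lemma young {Z : Set (ℕ × ℕ)} (hZ : IsZeroSet Z) {r c : ℕ → ℕ} (hr : Antitone r)
    (hc : Antitone c) : ∀ t i j i' j', (i, j) ∈ seqA Z r c t → i' ≤ i → j' ≤ j →
      (i', j') ∈ seqA Z r c t := by
  intro t
  induction t with
  | zero => intro i j i' j' h; exact absurd h (Set.notMem_empty _)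
  | succ t ih =>
    intro i j i' j' h hi hj
    rw [seqA_succ] at h ⊢
    rcases h with h | h
    · exact Or.inl (ih _ _ _ _ h hi hj)
    · right
      simp only [Set.mem_ofPred_eq] at h ⊢
      rw [not_InZ_iff hZ] at h ⊢
      obtain ⟨a, b, h1, h2, h3⟩ := h
      refine ⟨a, b, h1, h2.trans ?_, h3.trans ?_⟩
      · refine add_le_add (Set.encard_le_encard ?_) (by exact_mod_cast hr hj)
        intro x hx
        exact ih _ _ _ _ hx le_rfl hj
      · refine add_le_add (Set.encard_le_encard ?_) (by exact_mod_cast hc hi)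
        intro x hx
        exact ih _ _ _ _ hx hi le_rfl

lemma le_encard_iff {S : Set ℕ} (hS : ∀ a b, a ≤ b → b ∈ S → a ∈ S) (x : ℕ) :
    (x : ℕ∞) ≤ S.encard ↔ x = 0 ∨ x - 1 ∈ S := by
  constructor
  · intro h
    by_cases hx : x = 0
    · exact Or.inl hx
    right
    by_contra hcon
    have hsub : S ⊆ (Finset.range (x - 1) : Finset ℕ) := by
      intro y hy
      simp only [Finset.coe_range, Set.mem_Iio]
      by_contra hy'
      exact hcon (hS _ _ (by omega) hy)
    have h1 := h.trans (Set.encard_le_encard hsub)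
    rw [Set.encard_coe_eq_coe_finsetCard, Finset.card_range] at h1
    have : x ≤ x - 1 := by exact_mod_cast h1
    omega
  · rintro (rfl | h)
    · simp
    · have hsub : ((Finset.range x : Finset ℕ) : Set ℕ) ⊆ S := by
        intro y hy
        simp only [Finset.coe_range, Set.mem_Iio] at hy
        exact hS _ _ (by omega) h
      have h1 := Set.encard_le_encard hsub
      rwa [Set.encard_coe_eq_coe_finsetCard, Finset.card_range] at h1

lemma le_encard_add_iff {S : Set ℕ} (hS : ∀ a b, a ≤ b → b ∈ S → a ∈ S) (x r : ℕ) :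
    (x : ℕ∞) ≤ S.encard + r ↔ x ≤ r ∨ x - r - 1 ∈ S := by
  by_cases hx : x ≤ r
  · simp only [hx, true_or, iff_true]
    have : (x : ℕ∞) ≤ r := by exact_mod_cast hx
    exact this.trans le_add_self
  · have h1 : ((x : ℕ∞) ≤ S.encard + r) ↔ ((x - r : ℕ) : ℕ∞) ≤ S.encard := by
      obtain ⟨d, rfl⟩ : ∃ d, x = d + r := ⟨x - r, by omega⟩
      rw [Nat.add_sub_cancel, Nat.cast_add]
      exact WithTop.add_le_add_iff_right (WithTop.coe_ne_top)
    rw [h1, le_encard_iff hS]
    simp only [hx, false_or]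
    constructor
    · rintro (h | h)
      · omega
      · exact h
    · intro h
      exact Or.inr h

/-- The rule of the dynamics in terms of `RG` and `CG`. -/
lemma gen_rule {Z : Set (ℕ × ℕ)} (hZ : IsZeroSet Z) {r c : ℕ → ℕ} (hr : Antitone r)
    (hc : Antitone c) (t i j : ℕ) : (i, j) ∈ seqA Z r c (t + 1) ↔ (i, j) ∈ seqA Z r c t ∨
      ∃ a b, (a, b) ∉ Z ∧ RG r (seqA Z r c) j a t ∧ CG c (seqA Z r c) i b t := by
  have hy := young hZ hr hc t
  rw [seqA_succ]
  unfold stepEn
  rw [Set.mem_union, Set.mem_ofPred_eq, not_InZ_iff hZ]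
  have h1 : ∀ a : ℕ, (a : ℕ∞) ≤ row (i, j) (seqA Z r c t) + r (i, j).2 ↔
      RG r (seqA Z r c) j a t := by
    intro a
    exact le_encard_add_iff (fun a b hab hb => hy _ _ _ _ hb hab le_rfl) a (r j)
  have h2 : ∀ b : ℕ, (b : ℕ∞) ≤ col (i, j) (seqA Z r c t) + c (i, j).1 ↔
      CG c (seqA Z r c) i b t := by
    intro b
    exact le_encard_add_iff (fun a b hab hb => hy _ _ _ _ hb le_rfl hab) b (c i)
  simp only [h1, h2]

/-! ### The staircases: upper bound -/

/-- The heights of the staircase. -/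
def YY (m k : ℕ) : ℕ := if k < m then m ^ 2 * 2 ^ (m - k) else 0

/-- The staircase with `m` steps of length `m` and geometric heights. -/
def stair (m : ℕ) : Set (ℕ × ℕ) :=
  ⋃ p ∈ (Finset.range m).image (fun k => ((k + 1) * m, YY m k)), rect p.1 p.2

lemma YY_two (m k : ℕ) : 2 * YY m (k + 1) ≤ YY m k := by
  unfold YY
  by_cases h : k + 1 < m
  · rw [if_pos h, if_pos (by omega)]
    have : m - k = (m - (k + 1)) + 1 := by omega
    rw [this, pow_succ]
    apply le_of_eq
    ring
  · rw [if_neg h]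
    omega

lemma YY_anti (m : ℕ) : Antitone (YY m) := by
  apply antitone_nat_of_succ_le
  intro n
  have := YY_two m n
  omega

lemma mem_stair {m a b : ℕ} : (a, b) ∈ stair m ↔ ∃ k, k < m ∧ a < (k + 1) * m ∧ b < YY m k := by
  unfold stair rect
  simp only [Set.mem_iUnion, Finset.mem_image, Finset.mem_range, Set.mem_ofPred_eq, exists_prop]
  constructor
  · rintro ⟨p, ⟨k, hk, rfl⟩, h1, h2⟩
    exact ⟨k, hk, h1, h2⟩
  · rintro ⟨k, hk, h1, h2⟩
    exact ⟨_, ⟨k, hk, rfl⟩, h1, h2⟩

lemma notMem_stair {m a b : ℕ} : (a, b) ∉ stair m ↔ ∃ k, k ≤ m ∧ k * m ≤ a ∧ YY m k ≤ b := by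
  rw [mem_stair]
  constructor
  · intro h
    push Not at h
    classical
    have h0 : (0 * m ≤ a) := by simp
    have h1 : Nat.findGreatest (fun k => k * m ≤ a) m * m ≤ a :=
      Nat.findGreatest_spec (P := fun k => k * m ≤ a) (Nat.zero_le m) h0
    have h2 := Nat.findGreatest_le (P := fun k => k * m ≤ a) m
    refine ⟨Nat.findGreatest (fun k => k * m ≤ a) m, h2, h1, ?_⟩
    rcases Nat.lt_or_eq_of_le h2 with h3 | h3
    · refine h _ h3 ?_
      by_contra hcon
      have h4 := Nat.le_findGreatest (P := fun k => k * m ≤ a)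
        (show Nat.findGreatest (fun k => k * m ≤ a) m + 1 ≤ m by omega) (by omega)
      omega
    · rw [h3]
      unfold YY
      simp
  · rintro ⟨k, hk, h1, h2⟩ ⟨k', hk', h3, h4⟩
    rcases Nat.lt_or_ge k' k with h | h
    · have : (k' + 1) * m ≤ k * m := Nat.mul_le_mul_right m h
      omega
    · have := YY_anti m h
      omega

lemma stair_zs {m : ℕ} (hm : 1 ≤ m) : IsZeroSet (stair m) := by
  refine ⟨_, ?_, rfl⟩
  intro p hp
  simp only [Finset.mem_image, Finset.mem_range] at hp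
  obtain ⟨k, hk, rfl⟩ := hp
  refine ⟨Nat.mul_pos (by omega) hm, ?_⟩
  unfold YY
  simp only [if_pos hk]
  exact Nat.mul_pos (by positivity) (by positivity)

lemma stair_rect {m : ℕ} (hm : 1 ≤ m) : rect (m ^ 2) (m ^ 2) ⊆ stair m := by
  rintro ⟨a, b⟩ ⟨h1, h2⟩
  rw [mem_stair]
  simp only at h1 h2
  refine ⟨m - 1, by omega, ?_, ?_⟩
  · rw [show m - 1 + 1 = m by omega]
    nlinarith
  · unfold YY
    rw [if_pos (by omega), show m - (m - 1) = 1 by omega]
    omega

lemma stair_dyn {m : ℕ} (hm : 1 ≤ m) {r c : ℕ → ℕ} (hr : Antitone r) (hc : Antitone c) :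
    Dyn m m (YY m) r c (seqA (stair m) r c) where
  hY2 := YY_two m
  hYpos k hk := by
    unfold YY
    rw [if_pos hk]
    exact Nat.mul_pos (by positivity) (by positivity)
  hYK k hk := by
    unfold YY
    rw [if_neg (by omega)]
  hm := hm
  hr := hr
  hc := hc
  A0 := rfl
  Asucc t i j := by
    rw [gen_rule (stair_zs hm) hr hc]
    have hy := young (stair_zs hm) hr hc t
    constructor
    · rintro (h | ⟨a, b, h1, h2, h3⟩)
      · exact Or.inl h
      · obtain ⟨k, hk, h4, h5⟩ := notMem_stair.1 h1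
        refine Or.inr ⟨k, hk, ?_, ?_⟩
        · rcases h2 with h2 | h2
          · exact Or.inl (h4.trans h2)
          · exact Or.inr (hy _ _ _ _ h2 (by omega) le_rfl)
        · rcases h3 with h3 | h3
          · exact Or.inl (h5.trans h3)
          · exact Or.inr (hy _ _ _ _ h3 le_rfl (by omega))
    · rintro (h | ⟨k, hk, h1, h2⟩)
      · exact Or.inl h
      · exact Or.inr ⟨k * m, YY m k, notMem_stair.2 ⟨k, hk, le_rfl, le_rfl⟩, h1, h2⟩
  young := young (stair_zs hm) hr hc

lemma exists_of_spans {Z : Set (ℕ × ℕ)} {r c : ℕ → ℕ} (h : Spans Z r c) (i j : ℕ) :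
    ∃ t, (i, j) ∈ seqA Z r c t := by
  have : (i, j) ∈ ⋃ t : ℕ, (stepEn Z r c)^[t] ∅ := by
    rw [show (⋃ t : ℕ, (stepEn Z r c)^[t] ∅) = Set.univ from h]
    trivial
  exact Set.mem_iUnion.1 this

lemma muEn_stair {m : ℕ} (hm : 1 ≤ m) : muEn (stair m) ≤ ((13 * m + 5 : ℕ) : ℕ∞) := by
  unfold muEn
  refine iSup_le fun r => iSup_le fun c => iSup_le fun h => ?_
  obtain ⟨hr, hc, hs⟩ := h
  have h1 := (stair_dyn hm hr.1 hc.1).time (exists_of_spans hs)
  unfold tauEn
  have h2 : (stepEn (stair m) r c)^[13 * m + 5] ∅ = Set.univ := by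
    have : 9 * m + 4 * m + 5 = 13 * m + 5 := by ring
    rw [← this]
    exact h1
  exact iInf₂_le (13 * m + 5) ⟨by omega, h2⟩

lemma side_bdd {Z : Set (ℕ × ℕ)} (hZ : IsZeroSet Z) : BddAbove {s : ℕ | rect s s ⊆ Z} := by
  obtain ⟨M, hM⟩ := zs_bdd hZ
  refine ⟨M, ?_⟩
  intro s hs
  by_contra hcon
  have h1 : (M, M) ∈ rect s s := ⟨by simpa using hcon, by simpa using hcon⟩
  have := (hM _ (hs h1)).1
  simp at this

lemma le_side {Z : Set (ℕ × ℕ)} (hZ : IsZeroSet Z) {s : ℕ} (h : rect s s ⊆ Z) : s ≤ side Z :=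
  le_csSup (side_bdd hZ) h

lemma rect_side {Z : Set (ℕ × ℕ)} (hZ : IsZeroSet Z) : rect (side Z) (side Z) ⊆ Z := by
  have : side Z ∈ {s : ℕ | rect s s ⊆ Z} := by
    refine Nat.sSup_mem ⟨0, ?_⟩ (side_bdd hZ)
    rintro ⟨a, b⟩ ⟨h1, h2⟩
    simp at h1
  exact this

lemma one_le_side {Z : Set (ℕ × ℕ)} (hZ : IsZeroSet Z) (hne : Z.Nonempty) : 1 ≤ side Z := by
  apply le_side hZ
  obtain ⟨⟨a, b⟩, h⟩ := hne
  rintro ⟨x, y⟩ ⟨h1, h2⟩
  exact zs_down hZ h (by simp at h1; omega) (by simp at h2; omega)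

/-! ### The lower bound -/

/-- The time is at least the number of the corners. -/
lemma corners_le {Z : Set (ℕ × ℕ)} (hZ : IsZeroSet Z) (C : Finset (ℕ × ℕ))
    (hC : ∀ p ∈ C, p ∈ Z ∧ (p.1 + 1, p.2) ∉ Z ∧ (p.1, p.2 + 1) ∉ Z) :
    (C.card : ℕ∞) ≤ muEn Z := by
  classical
  obtain ⟨M, hM⟩ := zs_bdd hZ
  have hex : ∀ x, ∃ y, (x, y) ∉ Z := fun x => ⟨M, fun h => absurd (hM _ h).2 (lt_irrefl _)⟩
  let h : ℕ → ℕ := fun x => Nat.find (hex x)
  have h1 : ∀ x, (x, h x) ∉ Z := fun x => Nat.find_spec (hex x)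
  have h2 : ∀ x y, (x, y) ∉ Z → h x ≤ y := fun x y hy => Nat.find_min' (hex x) hy
  have hanti : Antitone h := by
    intro x x' hx
    exact h2 _ _ fun h3 => h1 x (zs_down hZ h3 hx le_rfl)
  have hfin : {j : ℕ | h j ≠ 0}.Finite := by
    refine (Set.finite_Iio M).subset ?_
    intro x hx
    by_contra hcon
    apply hx
    have := h2 x 0 fun h3 => absurd (hM _ h3).1 (by simpa using hcon)
    omega
  have h0anti : Antitone (fun _ : ℕ => 0) := fun _ _ _ => le_rfl
  have h0 : IsEnh (fun _ => 0) := ⟨h0anti, by simp⟩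
  have hyoung := young hZ h0anti hanti
  have hrule := gen_rule hZ h0anti hanti
  -- the pair spans
  have hsp : ∀ t i j, i < t → (i, j) ∈ seqA Z (fun _ => 0) h t := by
    intro t
    induction t with
    | zero => intro i j hi; omega
    | succ t ih =>
      intro i j hi
      rw [hrule]
      rcases Nat.lt_succ_iff_lt_or_eq.1 hi with h3 | rfl
      · exact Or.inl (ih i j h3)
      · refine Or.inr ⟨i, h i, h1 i, ?_, Or.inl le_rfl⟩
        rcases Nat.eq_zero_or_pos i with h4 | h4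
        · left
          simp [h4]
        · right
          exact ih _ j (by omega)
  have hspans : Spans Z (fun _ => 0) h := by
    unfold Spans
    rw [Set.eq_univ_iff_forall]
    rintro ⟨i, j⟩
    exact Set.mem_iUnion.2 ⟨i + 1, hsp (i + 1) i j (by omega)⟩
  -- the values of the occupied columns
  have hval : ∀ t, ∃ V : Finset ℕ, V.card ≤ t ∧ ∀ i j, (i, j) ∈ seqA Z (fun _ => 0) h t → h i ∈ V := by
    intro t
    induction t with
    | zero => exact ⟨∅, by simp, fun i j h3 => absurd h3 (Set.notMem_empty _)⟩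
    | succ t ih =>
      obtain ⟨V, hV1, hV2⟩ := ih
      by_cases hall : ∃ X, ∀ j, (X, j) ∉ seqA Z (fun _ => 0) h t
      · have hX := Nat.find_spec hall
        have hXmin : ∀ x < Nat.find hall, ∃ j, (x, j) ∈ seqA Z (fun _ => 0) h t := by
          intro x hx
          have := Nat.find_min hall hx
          push Not at this
          exact this
        set X := Nat.find hall
        refine ⟨insert (h X) V, (Finset.card_insert_le _ _).trans (by omega), ?_⟩
        intro i j hij
        rw [Finset.mem_insert]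
        by_cases hi : i < X
        · obtain ⟨j', hj'⟩ := hXmin i hi
          exact Or.inr (hV2 _ _ hj')
        left
        have hnone : ∀ j, (i, j) ∉ seqA Z (fun _ => 0) h t := fun j h3 =>
          hX j (hyoung _ _ _ _ _ h3 (by omega) le_rfl)
        rw [hrule] at hij
        rcases hij with h3 | ⟨a, b, h3, h4, h5⟩
        · exact absurd h3 (hnone j)
        have ha : a ≤ X := by
          rcases h4 with h4 | h4
          · exact le_trans h4 (Nat.zero_le _)
          · have h4' : (a - 0 - 1, j) ∈ seqA Z (fun _ => 0) h t := h4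
            by_contra hcon
            exact hX j (hyoung _ _ _ _ _ h4' (by omega) le_rfl)
        have hb : b ≤ h i := by
          rcases h5 with h5 | h5
          · exact h5
          · exact absurd h5 (hnone _)
        apply le_antisymm
        · exact hanti (by omega)
        · exact h2 _ _ fun h6 => h3 (zs_down hZ h6 ha hb)
      · push Not at hall
        refine ⟨V, by omega, ?_⟩
        intro i j _
        obtain ⟨j', hj'⟩ := hall i
        exact hV2 _ _ hj'
  have htau : (C.card : ℕ∞) ≤ tauEn Z (fun _ => 0) h := by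
    unfold tauEn
    refine le_iInf₂ fun t ht => ?_
    obtain ⟨V, hV1, hV2⟩ := hval t
    have hsub : C.image (fun p => h p.1) ⊆ V := by
      intro y hy
      obtain ⟨p, hp, rfl⟩ := Finset.mem_image.1 hy
      refine hV2 p.1 0 ?_
      unfold seqA
      rw [ht.2]
      trivial
    have hh : ∀ p ∈ C, h p.1 = p.2 + 1 := by
      intro p hp
      obtain ⟨k1, k2, k3⟩ := hC p hp
      apply le_antisymm
      · exact h2 _ _ k3
      · by_contra hcon
        exact h1 p.1 (zs_down hZ (show (p.1, p.2) ∈ Z from k1) le_rfl (by omega))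
    have hinj : Set.InjOn (fun p : ℕ × ℕ => h p.1) C := by
      rintro ⟨a, b⟩ hp ⟨a', b'⟩ hp' heq
      simp only at heq
      have e1 := hh _ hp
      have e2 := hh _ hp'
      simp only at e1 e2
      have hb : b = b' := by omega
      subst hb
      have ha : a = a' := by
        rcases lt_trichotomy a a' with h3 | h3 | h3
        · exact absurd (zs_down hZ (hC _ hp').1 (show a + 1 ≤ a' from h3) le_rfl) (hC _ hp).2.1
        · exact h3
        · exact absurd (zs_down hZ (hC _ hp).1 (show a' + 1 ≤ a from h3) le_rfl) (hC _ hp').2.1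
      rw [ha]
    have h3 := Finset.card_le_card hsub
    rw [Finset.card_image_of_injOn hinj] at h3
    exact_mod_cast h3.trans hV1
  refine htau.trans ?_
  unfold muEn
  exact le_iSup_of_le (fun _ => 0) (le_iSup_of_le h (le_iSup_of_le ⟨h0, ⟨hanti, hfin⟩, hspans⟩ le_rfl))

/-- The linear enhancement pair of a window. -/
lemma window_le {Z : Set (ℕ × ℕ)} (hZ : IsZeroSet Z) {a b x0 y0 : ℕ} (hx : a ≤ x0) (hy : b ≤ y0)
    (h0 : (x0, y0) ∈ Z) (hmax : ∀ x y, (x, y) ∈ Z → a ≤ x → b ≤ y → x + y ≤ x0 + y0) :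
    ((min (x0 - a) (y0 - b) + 1 : ℕ) : ℕ∞) ≤ muEn Z := by
  classical
  obtain ⟨M, hM⟩ := zs_bdd hZ
  have hMx := (hM _ h0).1
  have hMy := (hM _ h0).2
  simp only at hMx hMy
  let r : ℕ → ℕ := fun j => if j < b then M else x0 - a + 1 - (j - b)
  let c : ℕ → ℕ := fun i => if i < a then M else y0 - b - (i - a)
  have hr1 : ∀ j, j < b → r j = M := fun j hj => by simp only [r, if_pos hj]
  have hr2 : ∀ j, b ≤ j → r j = x0 - a + 1 - (j - b) := fun j hj => by
    simp only [r, if_neg (show ¬ j < b by omega)]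
  have hc1 : ∀ i, i < a → c i = M := fun i hi => by simp only [c, if_pos hi]
  have hc2 : ∀ i, a ≤ i → c i = y0 - b - (i - a) := fun i hi => by
    simp only [c, if_neg (show ¬ i < a by omega)]
  have hranti : Antitone r := by
    intro j j' hj
    rcases Nat.lt_or_ge j b with h1 | h1
    · rcases Nat.lt_or_ge j' b with h2 | h2
      · rw [hr1 _ h1, hr1 _ h2]
      · rw [hr1 _ h1, hr2 _ h2]
        omega
    · rw [hr2 _ h1, hr2 _ (by omega)]
      omega
  have hcanti : Antitone c := by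
    intro j j' hj
    rcases Nat.lt_or_ge j a with h1 | h1
    · rcases Nat.lt_or_ge j' a with h2 | h2
      · rw [hc1 _ h1, hc1 _ h2]
      · rw [hc1 _ h1, hc2 _ h2]
        omega
    · rw [hc2 _ h1, hc2 _ (by omega)]
      omega
  have hrfin : {j : ℕ | r j ≠ 0}.Finite := by
    refine (Set.finite_Iio (b + x0 + 1)).subset ?_
    intro j hj
    by_contra hcon
    have hcon' : ¬ j < b + x0 + 1 := hcon
    apply hj
    rw [hr2 _ (by omega)]
    omega
  have hcfin : {j : ℕ | c j ≠ 0}.Finite := by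
    refine (Set.finite_Iio (a + y0 + 1)).subset ?_
    intro j hj
    by_contra hcon
    have hcon' : ¬ j < a + y0 + 1 := hcon
    apply hj
    rw [hc2 _ (by omega)]
    omega
  have hyoung := young hZ hranti hcanti
  have hrule := gen_rule hZ hranti hcanti
  have hmono : Monotone (seqA Z r c) := by
    apply monotone_nat_of_le_succ
    rintro t ⟨i, j⟩ h
    exact (hrule t i j).2 (Or.inl h)
  -- first step
  have hfirst : ∀ i j, i < a ∨ j < b → (i, j) ∈ seqA Z r c 1 := by
    intro i j h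
    rw [show (1 : ℕ) = 0 + 1 from rfl, hrule]
    right
    rcases h with h | h
    · refine ⟨0, M, fun h1 => absurd (hM _ h1).2 (lt_irrefl _), Or.inl (Nat.zero_le _), Or.inl ?_⟩
      rw [hc1 _ h]
    · refine ⟨M, 0, fun h1 => absurd (hM _ h1).1 (lt_irrefl _), Or.inl ?_, Or.inl (Nat.zero_le _)⟩
      rw [hr1 _ h]
  have hsp : ∀ t i j, i + j < t → (a + i, b + j) ∈ seqA Z r c (t + 1) := by
    intro t
    induction t with
    | zero => intro i j h; omega
    | succ t ih =>
      intro i j h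
      rcases Nat.lt_or_ge (i + j) t with h1 | h1
      · exact hmono (Nat.le_succ _) (ih i j h1)
      have hij : i + j = t := by omega
      rw [hrule]
      right
      refine ⟨r (b + j) + (a + i), c (a + i) + (b + j), ?_, ?_, ?_⟩
      · intro h2
        have h3 := hmax _ _ h2 (by omega) (by omega)
        rw [hr2 _ (by omega), hc2 _ (by omega)] at h3
        omega
      · rcases Nat.eq_zero_or_pos (a + i) with h2 | h2
        · left; omega
        right
        rw [show r (b + j) + (a + i) - r (b + j) - 1 = a + i - 1 by omega]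
        rcases Nat.eq_zero_or_pos i with h3 | h3
        · exact hmono (Nat.succ_le_succ (Nat.zero_le _)) (hfirst _ _ (Or.inl (by omega)))
        · rw [show a + i - 1 = a + (i - 1) by omega]
          exact ih _ _ (by omega)
      · rcases Nat.eq_zero_or_pos (b + j) with h2 | h2
        · left; omega
        right
        rw [show c (a + i) + (b + j) - c (a + i) - 1 = b + j - 1 by omega]
        rcases Nat.eq_zero_or_pos j with h3 | h3
        · exact hmono (Nat.succ_le_succ (Nat.zero_le _)) (hfirst _ _ (Or.inr (by omega)))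
        · rw [show b + j - 1 = b + (j - 1) by omega]
          exact ih _ _ (by omega)
  have hspans : Spans Z r c := by
    unfold Spans
    rw [Set.eq_univ_iff_forall]
    rintro ⟨i, j⟩
    by_cases h1 : i < a ∨ j < b
    · exact Set.mem_iUnion.2 ⟨1, hfirst i j h1⟩
    · push Not at h1
      have := hsp (i - a + (j - b) + 1) (i - a) (j - b) (by omega)
      rw [show a + (i - a) = i by omega, show b + (j - b) = j by omega] at this
      exact Set.mem_iUnion.2 ⟨_, this⟩
  -- slowness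
  have hRGt : ∀ {j x t t' : ℕ}, t ≤ t' → RG r (seqA Z r c) j x t → RG r (seqA Z r c) j x t' := by
    intro j x t t' ht h
    rcases h with h | h
    · exact Or.inl h
    · exact Or.inr (hmono ht h)
  have hCGt : ∀ {j x t t' : ℕ}, t ≤ t' → CG c (seqA Z r c) j x t → CG c (seqA Z r c) j x t' := by
    intro j x t t' ht h
    rcases h with h | h
    · exact Or.inl h
    · exact Or.inr (hmono ht h)
  have hRGx : ∀ {j x x' t : ℕ}, x' ≤ x → RG r (seqA Z r c) j x t →
      RG r (seqA Z r c) j x' t := by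
    intro j x x' t hx' h
    rcases h with h | h
    · exact Or.inl (hx'.trans h)
    · exact Or.inr (hyoung _ _ _ _ _ h (by omega) le_rfl)
  have hCGx : ∀ {j x x' t : ℕ}, x' ≤ x → CG c (seqA Z r c) j x t →
      CG c (seqA Z r c) j x' t := by
    intro j x x' t hx' h
    rcases h with h | h
    · exact Or.inl (hx'.trans h)
    · exact Or.inr (hyoung _ _ _ _ _ h le_rfl (by omega))
  -- a cell of a row below `x0 + 1` lies in a column above `y0`
  have hstep : ∀ t i j, (i, j) ∈ seqA Z r c (t + 1) →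
      RG r (seqA Z r c) j (x0 + 1) t ∨ CG c (seqA Z r c) i (y0 + 1) t := by
    intro t
    induction t with
    | zero =>
      intro i j h
      rw [hrule] at h
      rcases h with h | ⟨x, y, h1, h2, h3⟩
      · exact absurd h (Set.notMem_empty _)
      by_cases hx' : x0 + 1 ≤ x
      · exact Or.inl (hRGx hx' h2)
      by_cases hy' : y0 + 1 ≤ y
      · exact Or.inr (hCGx hy' h3)
      · exact absurd (zs_down hZ h0 (by omega) (by omega)) h1
    | succ t ih =>
      intro i j h
      rw [hrule] at h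
      rcases h with h | ⟨x, y, h1, h2, h3⟩
      · rcases ih i j h with h4 | h4
        · exact Or.inl (hRGt (Nat.le_succ _) h4)
        · exact Or.inr (hCGt (Nat.le_succ _) h4)
      by_cases hx' : x0 + 1 ≤ x
      · exact Or.inl (hRGx hx' h2)
      by_cases hy' : y0 + 1 ≤ y
      · exact Or.inr (hCGx hy' h3)
      · exact absurd (zs_down hZ h0 (by omega) (by omega)) h1
  have hslow : ∀ t, t ≤ min (x0 - a) (y0 - b) →
      (∀ i, CG c (seqA Z r c) i (y0 + 1) t → i < a + t) ∧
      (∀ j, RG r (seqA Z r c) j (x0 + 1) t → j < b + t + 1) := by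
    intro t
    induction t with
    | zero =>
      intro _
      constructor
      · rintro i (h | h)
        · by_contra hcon
          rw [hc2 _ (by omega)] at h
          omega
        · exact absurd h (Set.notMem_empty _)
      · rintro i (h | h)
        · by_contra hcon
          rw [hr2 _ (by omega)] at h
          omega
        · exact absurd h (Set.notMem_empty _)
    | succ t ih =>
      intro ht
      obtain ⟨ih1, ih2⟩ := ih (by omega)
      constructor
      · intro i h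
        by_cases hold : CG c (seqA Z r c) i (y0 + 1) t
        · have := ih1 i hold
          omega
        by_contra hcon
        have hci := hc2 i (by omega)
        rcases h with h | h
        · omega
        rcases hstep _ _ _ h with h1 | h1
        · have := ih2 _ h1
          omega
        · exact hold h1
      · intro j h
        by_cases hold : RG r (seqA Z r c) j (x0 + 1) t
        · have := ih2 j hold
          omega
        by_contra hcon
        have hrj := hr2 j (by omega)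
        rcases h with h | h
        · omega
        rcases hstep _ _ _ h with h1 | h1
        · exact hold h1
        · have := ih1 _ h1
          omega
  have htau : ((min (x0 - a) (y0 - b) + 1 : ℕ) : ℕ∞) ≤ tauEn Z r c := by
    unfold tauEn
    refine le_iInf₂ fun t ht => ?_
    have hlt : min (x0 - a) (y0 - b) < t := by
      by_contra hcon
      have h1 := (hslow t (by omega)).2 (b + t + 1) (Or.inr (by
        unfold seqA
        rw [ht.2]
        trivial))
      omega
    exact_mod_cast hlt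
  refine htau.trans ?_
  unfold muEn
  exact le_iSup_of_le r (le_iSup_of_le c (le_iSup_of_le
    ⟨⟨hranti, hrfin⟩, ⟨hcanti, hcfin⟩, hspans⟩ le_rfl))

/-- `μ_en(Z) ≥ q` as soon as `q ^ 2 ≤ s(Z)`. -/
lemma sqrt_le {Z : Set (ℕ × ℕ)} (hZ : IsZeroSet Z) {q : ℕ} (hq : q * q ≤ side Z) :
    (q : ℕ∞) ≤ muEn Z := by
  classical
  by_contra hcon
  rcases Nat.eq_zero_or_pos q with rfl | hq0
  · simp at hcon
  have hs := rect_side hZ
  set s := side Z with hs_def
  have hwin : ∀ a b x0 y0 : ℕ, a ≤ x0 → b ≤ y0 → (x0, y0) ∈ Z →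
      (∀ x y, (x, y) ∈ Z → a ≤ x → b ≤ y → x + y ≤ x0 + y0) →
      x0 - a + 1 < q ∨ y0 - b + 1 < q := by
    intro a b x0 y0 h1 h2 h3 h4
    by_contra hcon2
    push Not at hcon2
    apply hcon
    refine le_trans ?_ (window_le hZ h1 h2 h3 h4)
    exact_mod_cast (show q ≤ min (x0 - a) (y0 - b) + 1 by omega)
  have key : ∀ k, k ≤ q → ∃ a b : ℕ, ∃ C : Finset (ℕ × ℕ), C.card = k ∧ a + b ≤ k * (q - 1) ∧
      (∀ p ∈ C, p ∈ Z ∧ (p.1 + 1, p.2) ∉ Z ∧ (p.1, p.2 + 1) ∉ Z) ∧
      ∀ p ∈ C, p.1 < a ∨ p.2 < b := by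
    intro k
    induction k with
    | zero => intro _; exact ⟨0, 0, ∅, rfl, by omega, by simp, by simp⟩
    | succ k ih =>
      intro hk
      obtain ⟨a, b, C, hC1, hab, hC2, hC3⟩ := ih (by omega)
      have hab2 : a + b + 1 ≤ s := by
        have h1 : k * (q - 1) ≤ (q - 1) * (q - 1) := Nat.mul_le_mul_right _ (by omega)
        have h2 : (q - 1) * (q - 1) + 1 ≤ q * q := by
          obtain ⟨d, rfl⟩ : ∃ d, q = d + 1 := ⟨q - 1, by omega⟩
          simp only [Nat.add_sub_cancel]
          nlinarith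
        omega
      -- the maximizer
      obtain ⟨M, hM⟩ := zs_bdd hZ
      have hfin : {p : ℕ × ℕ | p ∈ Z ∧ a ≤ p.1 ∧ b ≤ p.2}.Finite := by
        refine ((Set.finite_Iio M).prod (Set.finite_Iio M)).subset ?_
        rintro p ⟨hp, -⟩
        exact hM p hp
      have hnon : {p : ℕ × ℕ | p ∈ Z ∧ a ≤ p.1 ∧ b ≤ p.2}.Nonempty :=
        ⟨(s - 1, s - 1), hs ⟨by show s - 1 < s; omega, by show s - 1 < s; omega⟩,
          by show a ≤ s - 1; omega, by show b ≤ s - 1; omega⟩
      obtain ⟨⟨x0, y0⟩, ⟨h1, h2, h3⟩, h4⟩ :=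
        Set.exists_max_image _ (fun p : ℕ × ℕ => p.1 + p.2) hfin hnon
      simp only at h2 h3
      have hmax : ∀ x y, (x, y) ∈ Z → a ≤ x → b ≤ y → x + y ≤ x0 + y0 :=
        fun x y hxy hx hy => h4 (x, y) ⟨hxy, hx, hy⟩
      have hcorner : (x0, y0) ∈ Z ∧ (x0 + 1, y0) ∉ Z ∧ (x0, y0 + 1) ∉ Z := by
        refine ⟨h1, fun h => ?_, fun h => ?_⟩
        · have := hmax _ _ h (by omega) (by omega)
          omega
        · have := hmax _ _ h (by omega) (by omega)
          omega
      have hnew : (x0, y0) ∉ C := by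
        intro h
        rcases hC3 _ h with h5 | h5
        · simp only at h5; omega
        · simp only at h5; omega
      have hbound : (k + 1) * (q - 1) = k * (q - 1) + (q - 1) := by ring
      have hC2' : ∀ p ∈ insert (x0, y0) C, p ∈ Z ∧ (p.1 + 1, p.2) ∉ Z ∧ (p.1, p.2 + 1) ∉ Z := by
        intro p hp
        rcases Finset.mem_insert.1 hp with rfl | hp
        · exact hcorner
        · exact hC2 p hp
      rcases hwin a b x0 y0 h2 h3 h1 hmax with h5 | h5
      · refine ⟨x0 + 1, b, insert (x0, y0) C, ?_, by omega, hC2', ?_⟩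
        · rw [Finset.card_insert_of_notMem hnew, hC1]
        · intro p hp
          rcases Finset.mem_insert.1 hp with rfl | hp
          · left; show x0 < x0 + 1; omega
          · rcases hC3 p hp with h6 | h6
            · left; omega
            · right; exact h6
      · refine ⟨a, y0 + 1, insert (x0, y0) C, ?_, by omega, hC2', ?_⟩
        · rw [Finset.card_insert_of_notMem hnew, hC1]
        · intro p hp
          rcases Finset.mem_insert.1 hp with rfl | hp
          · right; show y0 < y0 + 1; omega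
          · rcases hC3 p hp with h6 | h6
            · left; exact h6
            · right; omega
  obtain ⟨a, b, C, hC1, -, hC2, -⟩ := key q le_rfl
  apply hcon
  have := corners_le hZ C hC2
  rwa [hC1] at this

/-! ### The critical exponent -/

lemma half_le {Z : Set (ℕ × ℕ)} (hZ : IsZeroSet Z) (hne : Z.Nonempty) {α : ℝ}
    (hα : α ≤ 1 / 2) : (1 / 2 : ENNReal) ≤ (muEn Z : ENNReal) / (side Z : ENNReal) ^ α := by
  have hs := one_le_side hZ hne
  set s := side Z with hs_def
  have hq1 : Nat.sqrt s * Nat.sqrt s ≤ s := Nat.sqrt_le s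
  have hq2 : s < (Nat.sqrt s + 1) * (Nat.sqrt s + 1) := Nat.lt_succ_sqrt s
  have hq3 : 1 ≤ Nat.sqrt s := Nat.sqrt_pos.2 hs
  set q := Nat.sqrt s with hq_def
  have hmu : (q : ℕ∞) ≤ muEn Z := sqrt_le hZ hq1
  have hmu' : (q : ENNReal) ≤ (muEn Z : ENNReal) := by
    have := ENat.toENNReal_mono hmu
    simpa using this
  have hs1 : (1 : ENNReal) ≤ (s : ENNReal) := by exact_mod_cast hs
  have h1 : (s : ENNReal) ^ α ≤ (s : ENNReal) ^ (1 / 2 : ℝ) :=
    ENNReal.rpow_le_rpow_of_exponent_le hs1 hα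
  have h2 : (s : ENNReal) ^ (1 / 2 : ℝ) ≤ ((q + 1 : ℕ) : ENNReal) := by
    have h3 : (s : ENNReal) ≤ ((q + 1 : ℕ) : ENNReal) ^ (2 : ℝ) := by
      rw [show (2 : ℝ) = ((2 : ℕ) : ℝ) by norm_num, ENNReal.rpow_natCast]
      exact_mod_cast (show s ≤ (q + 1) ^ 2 by nlinarith)
    calc (s : ENNReal) ^ (1 / 2 : ℝ) ≤ (((q + 1 : ℕ) : ENNReal) ^ (2 : ℝ)) ^ (1 / 2 : ℝ) :=
          ENNReal.rpow_le_rpow h3 (by norm_num)
      _ = ((q + 1 : ℕ) : ENNReal) := by
          rw [← ENNReal.rpow_mul]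
          norm_num
  have h4 : (s : ENNReal) ^ α ≠ 0 := by
    intro h
    rw [ENNReal.rpow_eq_zero_iff] at h
    rcases h with ⟨h, -⟩ | ⟨h, -⟩
    · rw [h] at hs1
      simp at hs1
    · exact absurd h (ENNReal.natCast_ne_top s)
  have h5 : (s : ENNReal) ^ α ≠ ⊤ := ne_top_of_le_ne_top (ENNReal.natCast_ne_top _) (h1.trans h2)
  rw [ENNReal.le_div_iff_mul_le (Or.inl h4) (Or.inl h5)]
  refine le_trans ?_ hmu'
  calc (1 / 2 : ENNReal) * (s : ENNReal) ^ α ≤ (1 / 2 : ENNReal) * ((q + 1 : ℕ) : ENNReal) := by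
        gcongr
        exact h1.trans h2
    _ ≤ (1 / 2 : ENNReal) * ((2 * q : ℕ) : ENNReal) := by
        gcongr
        omega
    _ = (q : ENNReal) := by
        push_cast
        rw [← mul_assoc, one_div, ENNReal.inv_mul_cancel (by norm_num) (by norm_num), one_mul]

lemma stair_ratio {m : ℕ} (hm : 1 ≤ m) {α : ℝ} (hα : 0 < α) :
    (muEn (stair m) : ENNReal) / (side (stair m) : ENNReal) ^ α ≤
      ENNReal.ofReal (18 * (m : ℝ) ^ (1 - 2 * α)) := by
  have hm0 : (0 : ℝ) < m := by exact_mod_cast hm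
  have h1 : (muEn (stair m) : ENNReal) ≤ ((13 * m + 5 : ℕ) : ENNReal) := by
    have := ENat.toENNReal_mono (muEn_stair hm)
    simpa using this
  have h2 : m ^ 2 ≤ side (stair m) := le_side (stair_zs hm) (stair_rect hm)
  have h3 : ENNReal.ofReal ((m : ℝ) ^ (2 * α)) ≤ (side (stair m) : ENNReal) ^ α := by
    have h4 : ENNReal.ofReal ((m : ℝ) ^ (2 * α)) = ((m ^ 2 : ℕ) : ENNReal) ^ α := by
      rw [Real.rpow_mul hm0.le, show ((m : ℝ) ^ (2 : ℝ)) = ((m ^ 2 : ℕ) : ℝ) by
        rw [show (2 : ℝ) = ((2 : ℕ) : ℝ) by norm_num, Real.rpow_natCast]; push_cast; ring]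
      rw [← ENNReal.ofReal_rpow_of_nonneg (by positivity) hα.le, ENNReal.ofReal_natCast]
    rw [h4]
    exact ENNReal.rpow_le_rpow (by exact_mod_cast h2) hα.le
  refine ENNReal.div_le_of_le_mul ?_
  calc (muEn (stair m) : ENNReal) ≤ ((13 * m + 5 : ℕ) : ENNReal) := h1
    _ ≤ ENNReal.ofReal (18 * (m : ℝ)) := by
        rw [← ENNReal.ofReal_natCast]
        apply ENNReal.ofReal_le_ofReal
        push_cast
        have : (1 : ℝ) ≤ m := by exact_mod_cast hm
        linarith
    _ = ENNReal.ofReal (18 * (m : ℝ) ^ (1 - 2 * α)) * ENNReal.ofReal ((m : ℝ) ^ (2 * α)) := by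
        rw [← ENNReal.ofReal_mul (by positivity), mul_assoc, ← Real.rpow_add hm0]
        congr 2
        rw [show 1 - 2 * α + 2 * α = 1 by ring, Real.rpow_one]
    _ ≤ ENNReal.ofReal (18 * (m : ℝ) ^ (1 - 2 * α)) * (side (stair m) : ENNReal) ^ α := by
        gcongr

lemma iInf_zero {α : ℝ} (hα : 1 / 2 < α) :
    ⨅ (Z : Set (ℕ × ℕ)) (_ : IsZeroSet Z ∧ Z.Nonempty),
      (muEn Z : ENNReal) / (side Z : ENNReal) ^ α = 0 := by
  have hlim : Filter.Tendsto (fun m : ℕ => ENNReal.ofReal (18 * (m : ℝ) ^ (1 - 2 * α)))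
      Filter.atTop (nhds 0) := by
    have h1 : Filter.Tendsto (fun x : ℝ => x ^ (-(2 * α - 1))) Filter.atTop (nhds 0) :=
      tendsto_rpow_neg_atTop (by linarith)
    have h2 := (h1.comp tendsto_natCast_atTop_atTop).const_mul 18
    rw [mul_zero] at h2
    have h3 := ENNReal.tendsto_ofReal h2
    rw [ENNReal.ofReal_zero] at h3
    refine h3.congr fun m => ?_
    simp only [Function.comp_apply]
    rw [show -(2 * α - 1) = 1 - 2 * α by ring]
  refine le_antisymm ?_ (by simp)
  refine ge_of_tendsto hlim ?_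
  filter_upwards [Filter.eventually_ge_atTop 1] with m hm
  have hne : (stair m).Nonempty := ⟨(0, 0), stair_rect hm ⟨by positivity, by positivity⟩⟩
  exact (iInf₂_le (stair m) ⟨stair_zs hm, hne⟩).trans (stair_ratio hm (by linarith))

/-- **Theorem.** `α_c^min = 1 / 2`. -/
theorem result : alphaMin = 1 / 2 := by
  have hset : {α : ℝ | 0 < α ∧ ⨅ (Z : Set (ℕ × ℕ)) (_ : IsZeroSet Z ∧ Z.Nonempty),
      (muEn Z : ENNReal) / (side Z : ENNReal) ^ α = 0} = Set.Ioi (1 / 2) := by
    ext α
    simp only [Set.mem_ofPred_eq, Set.mem_Ioi]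
    constructor
    · rintro ⟨-, h⟩
      by_contra hcon
      have h1 : (1 / 2 : ENNReal) ≤ ⨅ (Z : Set (ℕ × ℕ)) (_ : IsZeroSet Z ∧ Z.Nonempty),
          (muEn Z : ENNReal) / (side Z : ENNReal) ^ α :=
        le_iInf₂ fun Z hZ => half_le hZ.1 hZ.2 (by linarith)
      rw [h] at h1
      simp at h1
    · intro h
      exact ⟨by linarith, iInf_zero h⟩
  unfold alphaMin
  rw [hset]
  exact csInf_Ioi

end Pool.Agent.Results.MP_3b4555_co.CriticalHalf
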